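import Pool.Agent.H60.CM.Basic

/-!
# Stable surfaces of constant mean curvature (`MP_d9d403_gt`): the Jacobi equation in a chart
-/

set_option autoImplicit false

open Set Function MeasureTheory Filter Topology
open scoped Manifold ContDiff Matrix
open Pool.Agent.H60.CM

namespace Pool.Agent.H44.CMS

/-! ### rules for `pd` -/

theorem pd_congr {F : Type} [NormedAddCommGroup F] [NormedSpace ℝ F] {f g : E2 → F} {y : E2}
    (h : f =ᶠ[𝓝 y] g) (i : Fin 2) : pd f y i = pd g y i := by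
  unfold pd
  rw [h.fderiv_eq]

theorem pd_const {F : Type} [NormedAddCommGroup F] [NormedSpace ℝ F] (c : F) (y : E2)
    (i : Fin 2) : pd (fun _ : E2 => c) y i = 0 := by
  unfold pd
  rw [fderiv_fun_const]
  rfl

theorem pd_add {F : Type} [NormedAddCommGroup F] [NormedSpace ℝ F] {f g : E2 → F} {y : E2}
    (hf : DifferentiableAt ℝ f y) (hg : DifferentiableAt ℝ g y) (i : Fin 2) :
    pd (fun z => f z + g z) y i = pd f y i + pd g y i := by
  unfold pd
  rw [fderiv_fun_add hf hg]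
  rfl

theorem pd_mul {f g : E2 → ℝ} {y : E2}
    (hf : DifferentiableAt ℝ f y) (hg : DifferentiableAt ℝ g y) (i : Fin 2) :
    pd (fun z => f z * g z) y i = pd f y i * g y + f y * pd g y i := by
  unfold pd
  rw [fderiv_fun_mul hf hg]
  simp only [add_apply, smul_apply, smul_eq_mul]
  ring

theorem pd_smul {F : Type} [NormedAddCommGroup F] [NormedSpace ℝ F] {f : E2 → F} {y : E2}
    (hf : DifferentiableAt ℝ f y) (c : ℝ) (i : Fin 2) :
    pd (fun z => c • f z) y i = c • pd f y i := by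
  unfold pd
  rw [fderiv_fun_const_smul hf]
  rfl

theorem pd_neg {F : Type} [NormedAddCommGroup F] [NormedSpace ℝ F] {f : E2 → F} {y : E2}
    (i : Fin 2) : pd (fun z => -f z) y i = -pd f y i := by
  unfold pd
  rw [fderiv_fun_neg]
  rfl

theorem pd_coord {f : E2 → V3} {y : E2} (hf : DifferentiableAt ℝ f y) (k : Fin 3) (i : Fin 2) :
    pd (fun z => f z k) y i = pd f y i k := by
  have h := ((hasFDerivAt_pi'.1 hf.hasFDerivAt) k).fderiv
  unfold pd
  rw [h]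
  rfl

theorem dif_coord {f : E2 → V3} {y : E2} (hf : DifferentiableAt ℝ f y) (k : Fin 3) :
    DifferentiableAt ℝ (fun z => f z k) y := (differentiableAt_pi.1 hf) k

theorem dif_dot {u v : E2 → V3} {y : E2} (hu : DifferentiableAt ℝ u y)
    (hv : DifferentiableAt ℝ v y) : DifferentiableAt ℝ (fun z => u z ⬝ᵥ v z) y := by
  have h : (fun z => u z ⬝ᵥ v z) = fun z => u z 0 * v z 0 + u z 1 * v z 1 + u z 2 * v z 2 := by
    funext z
    exact Matrix.vec3_dotProduct _ _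
  rw [h]
  exact (((dif_coord hu 0).fun_mul (dif_coord hv 0)).fun_add
    ((dif_coord hu 1).fun_mul (dif_coord hv 1))).fun_add
      ((dif_coord hu 2).fun_mul (dif_coord hv 2))

theorem pd_dot {u v : E2 → V3} {y : E2} (hu : DifferentiableAt ℝ u y)
    (hv : DifferentiableAt ℝ v y) (i : Fin 2) :
    pd (fun z => u z ⬝ᵥ v z) y i = pd u y i ⬝ᵥ v y + u y ⬝ᵥ pd v y i := by
  have h : (fun z => u z ⬝ᵥ v z) = fun z => u z 0 * v z 0 + u z 1 * v z 1 + u z 2 * v z 2 := by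
    funext z
    exact Matrix.vec3_dotProduct _ _
  rw [h, pd_add (((dif_coord hu 0).fun_mul (dif_coord hv 0)).fun_add
    ((dif_coord hu 1).fun_mul (dif_coord hv 1))) ((dif_coord hu 2).fun_mul (dif_coord hv 2)),
    pd_add ((dif_coord hu 0).fun_mul (dif_coord hv 0))
    ((dif_coord hu 1).fun_mul (dif_coord hv 1)),
    pd_mul (dif_coord hu 0) (dif_coord hv 0), pd_mul (dif_coord hu 1) (dif_coord hv 1),
    pd_mul (dif_coord hu 2) (dif_coord hv 2), pd_coord hu, pd_coord hu, pd_coord hu,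
    pd_coord hv, pd_coord hv, pd_coord hv, Matrix.vec3_dotProduct, Matrix.vec3_dotProduct]
  ring

theorem cr0 (u v : V3) : (u ⨯₃ v) 0 = u 1 * v 2 - u 2 * v 1 := by
  rw [cross_apply]
  rfl

theorem cr1 (u v : V3) : (u ⨯₃ v) 1 = u 2 * v 0 - u 0 * v 2 := by
  rw [cross_apply]
  rfl

theorem cr2 (u v : V3) : (u ⨯₃ v) 2 = u 0 * v 1 - u 1 * v 0 := by
  rw [cross_apply]
  rfl

theorem pd_sub {f g : E2 → ℝ} {y : E2}
    (hf : DifferentiableAt ℝ f y) (hg : DifferentiableAt ℝ g y) (i : Fin 2) :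
    pd (fun z => f z - g z) y i = pd f y i - pd g y i := by
  unfold pd
  rw [fderiv_fun_sub hf hg]
  rfl

theorem dif_cross {u v : E2 → V3} {y : E2} (hu : DifferentiableAt ℝ u y)
    (hv : DifferentiableAt ℝ v y) : DifferentiableAt ℝ (fun z => u z ⨯₃ v z) y := by
  have m : ∀ j k : Fin 3, DifferentiableAt ℝ (fun z => u z j * v z k) y := fun j k =>
    (dif_coord hu j).fun_mul (dif_coord hv k)
  refine differentiableAt_pi.2 fun k => ?_
  fin_cases k
  · exact ((m 1 2).fun_sub (m 2 1)).congr_of_eventuallyEq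
      (Eventually.of_forall fun z => cr0 (u z) (v z))
  · exact ((m 2 0).fun_sub (m 0 2)).congr_of_eventuallyEq
      (Eventually.of_forall fun z => cr1 (u z) (v z))
  · exact ((m 0 1).fun_sub (m 1 0)).congr_of_eventuallyEq
      (Eventually.of_forall fun z => cr2 (u z) (v z))

theorem pd_cross {u v : E2 → V3} {y : E2} (hu : DifferentiableAt ℝ u y)
    (hv : DifferentiableAt ℝ v y) (i : Fin 2) :
    pd (fun z => u z ⨯₃ v z) y i = pd u y i ⨯₃ v y + u y ⨯₃ pd v y i := by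
  have m : ∀ j k : Fin 3, DifferentiableAt ℝ (fun z => u z j * v z k) y := fun j k =>
    (dif_coord hu j).fun_mul (dif_coord hv k)
  have key : ∀ j k l o : Fin 3, pd (fun z => u z j * v z k - u z l * v z o) y i =
      pd u y i j * v y k + u y j * pd v y i k - (pd u y i l * v y o + u y l * pd v y i o) := by
    intro j k l o
    rw [pd_sub (m _ _) (m _ _), pd_mul (dif_coord hu _) (dif_coord hv _),
      pd_mul (dif_coord hu _) (dif_coord hv _), pd_coord hu, pd_coord hu, pd_coord hv,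
      pd_coord hv]
  funext k
  rw [← pd_coord (dif_cross hu hv)]
  have e0 : (fun z => (u z ⨯₃ v z) 0) = fun z => u z 1 * v z 2 - u z 2 * v z 1 := by
    funext z
    exact cr0 _ _
  have e1 : (fun z => (u z ⨯₃ v z) 1) = fun z => u z 2 * v z 0 - u z 0 * v z 2 := by
    funext z
    exact cr1 _ _
  have e2 : (fun z => (u z ⨯₃ v z) 2) = fun z => u z 0 * v z 1 - u z 1 * v z 0 := by
    funext z
    exact cr2 _ _
  rw [Pi.add_apply]
  fin_cases k
  · show pd (fun z => (u z ⨯₃ v z) 0) y i = (pd u y i ⨯₃ v y) 0 + (u y ⨯₃ pd v y i) 0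
    rw [e0, key, cr0, cr0]
    ring
  · show pd (fun z => (u z ⨯₃ v z) 1) y i = (pd u y i ⨯₃ v y) 1 + (u y ⨯₃ pd v y i) 1
    rw [e1, key, cr1, cr1]
    ring
  · show pd (fun z => (u z ⨯₃ v z) 2) y i = (pd u y i ⨯₃ v y) 2 + (u y ⨯₃ pd v y i) 2
    rw [e2, key, cr2, cr2]
    ring

theorem pd_symm {f : E2 → V3} {y : E2} (hf : ContDiffAt ℝ 2 f y) :
    pd (fun z => pd f z 1) y 0 = pd (fun z => pd f z 0) y 1 := by
  have h1 : DifferentiableAt ℝ (fderiv ℝ f) y :=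
    (hf.fderiv_right (m := 1)
        (by norm_num)).differentiableAt (by norm_num)
  have h2 : ∀ v w : E2, fderiv ℝ (fun z => fderiv ℝ f z v) y w = fderiv ℝ (fderiv ℝ f) y w v := by
    intro v w
    rw [fderiv_clm_apply h1 (differentiableAt_const v)]
    simp
  unfold pd
  rw [h2, h2]
  exact (hf.isSymmSndFDerivAt (by simp)) _ _

/-! ### algebra -/

theorem cross_normal {X0 X1 n : V3} (hu : n ⬝ᵥ n = 1) (h0 : n ⬝ᵥ X0 = 0) (h1 : n ⬝ᵥ X1 = 0) :
    (X0 ⨯₃ X1) ⬝ᵥ (X0 ⨯₃ X1) = ((X0 ⨯₃ X1) ⬝ᵥ n) ^ 2 := by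
  rw [Matrix.vec3_dotProduct] at hu h0 h1
  rw [Matrix.vec3_dotProduct, Matrix.vec3_dotProduct, cr0, cr1, cr2]
  linear_combination
    (-((X0 1 * X1 2 - X0 2 * X1 1) ^ 2 + (X0 2 * X1 0 - X0 0 * X1 2) ^ 2 +
      (X0 0 * X1 1 - X0 1 * X1 0) ^ 2)) * hu +
    ((X0 0 ^ 2 + X0 1 ^ 2 + X0 2 ^ 2) * (n 0 * X1 0 + n 1 * X1 1 + n 2 * X1 2) -
      2 * (X0 0 * X1 0 + X0 1 * X1 1 + X0 2 * X1 2) * (n 0 * X0 0 + n 1 * X0 1 + n 2 * X0 2)) * h1
    + ((X1 0 ^ 2 + X1 1 ^ 2 + X1 2 ^ 2) * (n 0 * X0 0 + n 1 * X0 1 + n 2 * X0 2)) * h0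

theorem sum_brk (a0 a1 n u v p q : V3) :
    ∑ i : Fin 3, brk a0 a1 n (u i) (v i) (p i) (q i) =
      (u ⬝ᵥ q - v ⬝ᵥ p) / ((a0 ⨯₃ a1) ⬝ᵥ n) := by
  rw [Fin.sum_univ_three, Matrix.vec3_dotProduct u q, Matrix.vec3_dotProduct v p]
  unfold brk
  ring

theorem sum_brk2 (a0 a1 n c p q : V3) (h0 h1 : ℝ) :
    ∑ i : Fin 3, c i * brk a0 a1 n h0 h1 (p i) (q i) =
      (h0 * (c ⬝ᵥ q) - h1 * (c ⬝ᵥ p)) / ((a0 ⨯₃ a1) ⬝ᵥ n) := by
  rw [Fin.sum_univ_three, Matrix.vec3_dotProduct c q, Matrix.vec3_dotProduct c p]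
  unfold brk
  ring

section

variable (X n : E2 → V3) (H : ℝ) (a b : V3)

/-- the Killing field -/
def kk (z : E2) : V3 := a + b ⨯₃ X z

/-- the form -/
noncomputable def om (i : Fin 2) (z : E2) : ℝ :=
  (b - (2 * H) • (kk X a b z ⨯₃ n z)) ⬝ᵥ pd X z i + (-(kk X a b z ⨯₃ n z)) ⬝ᵥ pd n z i

variable {X n}

theorem om_eq {O : Set E2} (hO : IsOpen O) (hX : ContDiffOn ℝ ∞ X O) (hn : ContDiffOn ℝ ∞ n O)
    (hF : ∀ y ∈ O, Frm (pd X y 0) (pd X y 1) (n y) (pd n y 0) (pd n y 1) H) (h2 : T_STR)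
    {y : E2} (hy : y ∈ O) {s : ℝ} (hs : s ^ 2 = 1)
    (hw : aw X y = s * ((pd X y 0 ⨯₃ pd X y 1) ⬝ᵥ n y)) :
    (pd X y 1 ⬝ᵥ pd X y 1) / aw X y * pd (fun z => kk X a b z ⬝ᵥ n z) y 0 +
      (-(pd X y 0 ⬝ᵥ pd X y 1) / aw X y) * pd (fun z => kk X a b z ⬝ᵥ n z) y 1 =
        (-s) * om X n H a b 1 y ∧
    (-(pd X y 0 ⬝ᵥ pd X y 1) / aw X y) * pd (fun z => kk X a b z ⬝ᵥ n z) y 0 +
      (pd X y 0 ⬝ᵥ pd X y 0) / aw X y * pd (fun z => kk X a b z ⬝ᵥ n z) y 1 =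
        s * om X n H a b 0 y := by
  have f := hF y hy
  have dX : DifferentiableAt ℝ X y :=
    ((hX y hy).contDiffAt (hO.mem_nhds hy)).differentiableAt (by simp)
  have dn : DifferentiableAt ℝ n y :=
    ((hn y hy).contDiffAt (hO.mem_nhds hy)).differentiableAt (by simp)
  have dk : DifferentiableAt ℝ (kk X a b) y :=
    (differentiableAt_const a).fun_add (dif_cross (differentiableAt_const b) dX)
  have pk : ∀ i, pd (kk X a b) y i = b ⨯₃ pd X y i := by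
    intro i
    have h : kk X a b = fun z => (fun _ => a) z + (fun z => (fun _ => b) z ⨯₃ X z) z := rfl
    rw [h, pd_add (differentiableAt_const a) (dif_cross (differentiableAt_const b) dX),
      pd_const, pd_cross (differentiableAt_const b) dX, pd_const]
    simp
  have pφ : ∀ i, pd (fun z => kk X a b z ⬝ᵥ n z) y i =
      (b ⨯₃ pd X y i) ⬝ᵥ n y + kk X a b y ⬝ᵥ pd n y i := by
    intro i
    rw [pd_dot dk dn, pk]
  have hc := cross_normal f.unit f.nx0 f.nx1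
  have hw0 : (pd X y 0 ⨯₃ pd X y 1) ⬝ᵥ n y ≠ 0 := by
    intro h
    rw [h] at hc
    have h3 := f.imm
    apply h3
    exact dotProduct_self_eq_zero.1 (by rw [hc]; ring)
  set w : ℝ := (pd X y 0 ⨯₃ pd X y 1) ⬝ᵥ n y with hwd
  have hs0 : s ≠ 0 := by
    intro h
    rw [h] at hs
    norm_num at hs
  have t1 := h2 _ _ _ _ _ _ f (kk X a b y) b 1 0
  have t2 := h2 _ _ _ _ _ _ f (kk X a b y) b 0 1
  rw [sum_brk2, sum_brk2, ← hwd] at t1 t2
  rw [← pφ, ← pφ] at t1 t2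
  unfold bil at t1 t2
  rw [hc] at t1 t2
  simp only [one_smul, zero_smul, sub_zero, zero_sub, neg_dotProduct, dotProduct_sub,
    dotProduct_smul, smul_eq_mul, one_mul, zero_mul] at t1 t2
  rw [dotProduct_comm (pd X y 1) (pd X y 0)] at t1
  unfold om
  rw [hw]
  set g00 := pd X y 0 ⬝ᵥ pd X y 0
  set g01 := pd X y 0 ⬝ᵥ pd X y 1
  set g11 := pd X y 1 ⬝ᵥ pd X y 1
  set φ0 := pd (fun z => kk X a b z ⬝ᵥ n z) y 0
  set φ1 := pd (fun z => kk X a b z ⬝ᵥ n z) y 1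
  set Pv := b - (2 * H) • (kk X a b y ⨯₃ n y)
  set A1 := Pv ⬝ᵥ pd X y 1
  set A0 := Pv ⬝ᵥ pd X y 0
  rw [neg_dotProduct, neg_dotProduct]
  set B1 := (kk X a b y ⨯₃ n y) ⬝ᵥ pd n y 1
  set B0 := (kk X a b y ⨯₃ n y) ⬝ᵥ pd n y 0
  have u1 : φ0 * g11 - φ1 * g01 = -(A1 - B1) * w := by
    field_simp at t1
    linear_combination -t1
  have u2 : -(φ0 * g01) + φ1 * g00 = (A0 - B0) * w := by
    field_simp at t2
    linear_combination -t2
  have hsw : s * w ≠ 0 := mul_ne_zero hs0 hw0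
  constructor
  · have e1 : g11 / (s * w) * φ0 + -g01 / (s * w) * φ1 = (φ0 * g11 - φ1 * g01) / (s * w) := by
      ring
    rw [e1, u1, div_eq_iff hsw]
    linear_combination ((A1 - B1) * w) * hs
  · have e1 : -g01 / (s * w) * φ0 + g00 / (s * w) * φ1 = (-(φ0 * g01) + φ1 * g00) / (s * w) := by
      ring
    rw [e1, u2, div_eq_iff hsw]
    linear_combination (-(A0 - B0) * w) * hs

/-- the area density near a point -/
theorem aw_near {O : Set E2} (hO : IsOpen O) (hX : ContDiffOn ℝ ∞ X O) (hn : ContDiffOn ℝ ∞ n O)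
    (hF : ∀ y ∈ O, Frm (pd X y 0) (pd X y 1) (n y) (pd n y 0) (pd n y 1) H)
    {y : E2} (hy : y ∈ O) : ∃ s : ℝ, s ^ 2 = 1 ∧
      ∀ᶠ z in 𝓝 y, z ∈ O ∧ aw X z = s * ((pd X z 0 ⨯₃ pd X z 1) ⬝ᵥ n z) := by
  have hab : ∀ z ∈ O, aw X z = |(pd X z 0 ⨯₃ pd X z 1) ⬝ᵥ n z| := by
    intro z hz
    have f := hF z hz
    unfold aw
    rw [cross_normal f.unit f.nx0 f.nx1, Real.sqrt_sq_eq_abs]
  have hnz : (pd X y 0 ⨯₃ pd X y 1) ⬝ᵥ n y ≠ 0 := by
    intro h
    have f := hF y hy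
    have hc := cross_normal f.unit f.nx0 f.nx1
    rw [h] at hc
    exact f.imm (dotProduct_self_eq_zero.1 (by rw [hc]; ring))
  have cX : ContDiffAt ℝ ∞ X y := (hX y hy).contDiffAt (hO.mem_nhds hy)
  have cn : ContDiffAt ℝ ∞ n y := (hn y hy).contDiffAt (hO.mem_nhds hy)
  have dpd : ∀ i, DifferentiableAt ℝ (fun z => pd X z i) y := by
    intro i
    have h1 : DifferentiableAt ℝ (fderiv ℝ X) y :=
      ((cX.of_le (m := 2) (by norm_cast)).fderiv_right (m := 1)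
        (by norm_num)).differentiableAt (by norm_num)
    exact h1.clm_apply (differentiableAt_const _)
  have hcont : ContinuousAt (fun z => (pd X z 0 ⨯₃ pd X z 1) ⬝ᵥ n z) y :=
    (dif_dot (dif_cross (dpd 0) (dpd 1)) (cn.differentiableAt (by simp))).continuousAt
  rcases lt_or_gt_of_ne hnz with h | h
  · refine ⟨-1, by norm_num, ?_⟩
    filter_upwards [hcont.eventually (gt_mem_nhds h), hO.mem_nhds hy] with z h1 h2
    refine ⟨h2, ?_⟩
    rw [hab z h2, abs_of_neg h1]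
    ring
  · refine ⟨1, by norm_num, ?_⟩
    filter_upwards [hcont.eventually (lt_mem_nhds h), hO.mem_nhds hy] with z h1 h2
    refine ⟨h2, ?_⟩
    rw [hab z h2, abs_of_pos h1]
    ring

/-- the Jacobi equation in the plane -/
theorem main_pd {O : Set E2} (hO : IsOpen O) (hX : ContDiffOn ℝ ∞ X O)
    (hn : ContDiffOn ℝ ∞ n O)
    (hF : ∀ y ∈ O, Frm (pd X y 0) (pd X y 1) (n y) (pd n y 0) (pd n y 1) H) (h2 : T_STR)
    (h3 : T_JAC) {y : E2} (hy : y ∈ O) :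
    Lab (fun z => (pd X z 1 ⬝ᵥ pd X z 1) / aw X z)
      (fun z => -(pd X z 0 ⬝ᵥ pd X z 1) / aw X z)
      (fun z => (pd X z 0 ⬝ᵥ pd X z 0) / aw X z)
      (fun z => kk X a b z ⬝ᵥ n z) y =
    -((∑ k : Fin 3, bil (pd X y 0) (pd X y 1) (pd n y 0 k) (pd n y 1 k) (pd n y 0 k)
      (pd n y 1 k)) * (kk X a b y ⬝ᵥ n y) * aw X y) := by
  obtain ⟨s, hs, hev⟩ := aw_near H hO hX hn hF hy
  have cX : ContDiffAt ℝ ∞ X y := (hX y hy).contDiffAt (hO.mem_nhds hy)
  have cn : ContDiffAt ℝ ∞ n y := (hn y hy).contDiffAt (hO.mem_nhds hy)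
  have dX : DifferentiableAt ℝ X y := cX.differentiableAt (by simp)
  have dn : DifferentiableAt ℝ n y := cn.differentiableAt (by simp)
  have dpX : ∀ i, DifferentiableAt ℝ (fun z => pd X z i) y := by
    intro i
    have h1 : DifferentiableAt ℝ (fderiv ℝ X) y :=
      ((cX.of_le (m := 2) (by norm_cast)).fderiv_right (m := 1)
        (by norm_num)).differentiableAt (by norm_num)
    exact h1.clm_apply (differentiableAt_const _)
  have dpn : ∀ i, DifferentiableAt ℝ (fun z => pd n z i) y := by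
    intro i
    have h1 : DifferentiableAt ℝ (fderiv ℝ n) y :=
      ((cn.of_le (m := 2) (by norm_cast)).fderiv_right (m := 1)
        (by norm_num)).differentiableAt (by norm_num)
    exact h1.clm_apply (differentiableAt_const _)
  have dk : DifferentiableAt ℝ (kk X a b) y :=
    (differentiableAt_const a).fun_add (dif_cross (differentiableAt_const b) dX)
  have pk : ∀ i, pd (kk X a b) y i = b ⨯₃ pd X y i := by
    intro i
    have h : kk X a b = fun z => (fun _ => a) z + (fun z => (fun _ => b) z ⨯₃ X z) z := rfl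
    rw [h, pd_add (differentiableAt_const a) (dif_cross (differentiableAt_const b) dX),
      pd_const, pd_cross (differentiableAt_const b) dX, pd_const]
    simp
  have dkn : DifferentiableAt ℝ (fun z => kk X a b z ⨯₃ n z) y := dif_cross dk dn
  have pkn : ∀ i, pd (fun z => kk X a b z ⨯₃ n z) y i =
      (b ⨯₃ pd X y i) ⨯₃ n y + kk X a b y ⨯₃ pd n y i := by
    intro i
    rw [pd_cross dk dn, pk]
  have dP : DifferentiableAt ℝ (fun z => b - (2 * H) • (kk X a b z ⨯₃ n z)) y :=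
    (differentiableAt_const b).fun_sub (dkn.fun_const_smul (2 * H))
  have pP : ∀ i, pd (fun z => b - (2 * H) • (kk X a b z ⨯₃ n z)) y i =
      -(2 * H) • ((b ⨯₃ pd X y i) ⨯₃ n y + kk X a b y ⨯₃ pd n y i) := by
    intro i
    have h : (fun z => b - (2 * H) • (kk X a b z ⨯₃ n z)) =
        fun z => (fun _ => b) z + (fun z => (-(2 * H)) • (kk X a b z ⨯₃ n z)) z := by
      funext z
      simp only [neg_smul]
      abel
    rw [h, pd_add (differentiableAt_const b) (dkn.fun_const_smul (-(2 * H))), pd_const,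
      pd_smul dkn, pkn, zero_add]
  have dR : DifferentiableAt ℝ (fun z => -(kk X a b z ⨯₃ n z)) y := dkn.fun_neg
  have pR : ∀ i, pd (fun z => -(kk X a b z ⨯₃ n z)) y i =
      -((b ⨯₃ pd X y i) ⨯₃ n y + kk X a b y ⨯₃ pd n y i) := by
    intro i
    rw [pd_neg, pkn]
  have dom : ∀ i, DifferentiableAt ℝ (om X n H a b i) y := fun i =>
    (dif_dot dP (dpX i)).fun_add (dif_dot dR (dpn i))
  have pom : ∀ i j, pd (om X n H a b i) y j =
      ((-(2 * H) • ((b ⨯₃ pd X y j) ⨯₃ n y + kk X a b y ⨯₃ pd n y j)) ⬝ᵥ pd X y i +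
        (b - (2 * H) • (kk X a b y ⨯₃ n y)) ⬝ᵥ pd (fun z => pd X z i) y j) +
      ((-((b ⨯₃ pd X y j) ⨯₃ n y + kk X a b y ⨯₃ pd n y j)) ⬝ᵥ pd n y i +
        (-(kk X a b y ⨯₃ n y)) ⬝ᵥ pd (fun z => pd n z i) y j) := by
    intro i j
    have h : om X n H a b i = fun z =>
        (fun z => (b - (2 * H) • (kk X a b z ⨯₃ n z)) ⬝ᵥ pd X z i) z +
        (fun z => (-(kk X a b z ⨯₃ n z)) ⬝ᵥ pd n z i) z := rfl
    rw [h, pd_add (dif_dot dP (dpX i)) (dif_dot dR (dpn i)), pd_dot dP (dpX i),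
      pd_dot dR (dpn i), pP, pR]
  have sX := pd_symm (cX.of_le (m := 2) (by norm_cast))
  have sn := pd_symm (cn.of_le (m := 2) (by norm_cast))
  unfold Lab
  have e1 : (fun z => (pd X z 1 ⬝ᵥ pd X z 1) / aw X z * pd (fun z => kk X a b z ⬝ᵥ n z) z 0 +
      (-(pd X z 0 ⬝ᵥ pd X z 1) / aw X z) * pd (fun z => kk X a b z ⬝ᵥ n z) z 1) =ᶠ[𝓝 y]
        fun z => (-s) • om X n H a b 1 z := by
    filter_upwards [hev] with z hz
    exact (om_eq H a b hO hX hn hF h2 hz.1 hs hz.2).1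
  have e2 : (fun z => (-(pd X z 0 ⬝ᵥ pd X z 1) / aw X z) * pd (fun z => kk X a b z ⬝ᵥ n z) z 0 +
      (pd X z 0 ⬝ᵥ pd X z 0) / aw X z * pd (fun z => kk X a b z ⬝ᵥ n z) z 1) =ᶠ[𝓝 y]
        fun z => s • om X n H a b 0 z := by
    filter_upwards [hev] with z hz
    exact (om_eq H a b hO hX hn hF h2 hz.1 hs hz.2).2
  rw [pd_congr e1, pd_congr e2, pd_smul (dom 1), pd_smul (dom 0), pom, pom, sX, sn,
    hev.self_of_nhds.2]
  have f := hF y hy
  have hc := cross_normal f.unit f.nx0 f.nx1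
  have hw0 : (pd X y 0 ⨯₃ pd X y 1) ⬝ᵥ n y ≠ 0 := by
    intro h
    rw [h] at hc
    exact f.imm (dotProduct_self_eq_zero.1 (by rw [hc]; ring))
  have j := h3 _ _ _ _ _ _ f (kk X a b y) b
  rw [sum_brk, sum_brk, ← add_div, div_eq_iff hw0] at j
  simp only [smul_eq_mul]
  linear_combination (-s) * j

end

theorem pf_PDE (h1 : T_PFR) (h2 : T_STR) (h3 : T_JAC) (h4 : T_PDF) (h5 : T_PGR) : T_PDE := by
  intro D O ψ hψ a b y hy
  have cX : ContDiffOn ℝ ∞ (D.x ∘ ψ) O := by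
    intro z hz
    obtain ⟨m00, m01, m10, m11, -, hm⟩ := h4 D O ψ hψ y hy
    exact (hm V3 D.x D.smx).1 z hz
  have cn : ContDiffOn ℝ ∞ (D.N ∘ ψ) O := by
    intro z hz
    obtain ⟨m00, m01, m10, m11, -, hm⟩ := h4 D O ψ hψ y hy
    exact (hm V3 D.N D.smN).1 z hz
  have h := main_pd (X := D.x ∘ ψ) (n := D.N ∘ ψ) D.H a b hψ.isOpen cX cn (h1 D O ψ hψ) h2 h3 hy
  have dn : DifferentiableAt ℝ (D.N ∘ ψ) y :=
    ((cn y hy).contDiffAt (hψ.isOpen.mem_nhds hy)).differentiableAt (by simp)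
  have hsf : sf D.x D.N (ψ y) = ∑ k : Fin 3, bil (pd (D.x ∘ ψ) y 0) (pd (D.x ∘ ψ) y 1)
      (pd (D.N ∘ ψ) y 0 k) (pd (D.N ∘ ψ) y 1 k) (pd (D.N ∘ ψ) y 0 k) (pd (D.N ∘ ψ) y 1 k) := by
    unfold sf
    refine Finset.sum_congr rfl fun k _ => ?_
    have hk := (h5 D O ψ hψ y hy (fun s => D.N s k) (fun s => D.N s k)
      (Dat.Sm.coord D D.smN k) (Dat.Sm.coord D D.smN k)).1
    rw [hk]
    have e : ((fun s => D.N s k) ∘ ψ) = fun z => (D.N ∘ ψ) z k := rfl
    rw [e, pd_coord dn, pd_coord dn]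
  rw [hsf]
  exact h

end Pool.Agent.H44.CMS
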